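import Mathlib

/-! Minors of matrices with trivial kernel, determinants of homogeneous matrices. -/

set_option autoImplicit false

open MvPolynomial

namespace W410.RG

theorem exists_rows {K : Type} [Field K] {m : ℕ} {ρ : Type} (A : Matrix ρ (Fin m) K)
    (h : ∀ v : Fin m → K, (∀ r, ∑ j, A r j * v j = 0) → v = 0) :
    ∃ e : Fin m → ρ, (A.submatrix e id).det ≠ 0 := by
  classical
  obtain ⟨κ, a, ha, hsp, hli⟩ := exists_linearIndependent' K (fun r => (A r : Fin m → K))
  have htop : Submodule.span K (Set.range (fun r => (A r : Fin m → K))) = ⊤ := by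
    by_contra hne
    obtain ⟨f, hf, hle⟩ := Submodule.exists_le_ker_of_lt_top _ (lt_top_iff_ne_top.2 hne)
    apply hf
    have h1 : (fun j => f (Pi.single j 1)) = (0 : Fin m → K) := by
      apply h
      intro r
      have h2 : f (A r) = 0 := hle (Submodule.subset_span ⟨r, rfl⟩)
      rw [← h2]
      conv_rhs => rw [show (A r : Fin m → K) = ∑ j, (A r j) • (Pi.single j (1:K) : Fin m → K) from by
        funext j
        rw [Finset.sum_apply]
        simp [Pi.single_apply]]
      rw [map_sum]
      refine Finset.sum_congr rfl fun j _ => ?_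
      rw [map_smul, smul_eq_mul]
    refine (Pi.basisFun K (Fin m)).ext fun j => ?_
    rw [Pi.basisFun_apply]
    exact congrFun h1 j
  rw [htop] at hsp
  let b : Module.Basis κ K (Fin m → K) := Module.Basis.mk hli hsp.ge
  have hfin : Fintype κ := FiniteDimensional.fintypeBasisIndex b
  have hcard : Fintype.card κ = m := by
    have h1 := Module.finrank_eq_card_basis b
    rw [Module.finrank_fin_fun] at h1
    exact h1.symm
  let ε : Fin m ≃ κ := (Fintype.equivFinOfCardEq hcard).symm
  refine ⟨fun i => a (ε i), ?_⟩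
  have h3 : LinearIndependent K (fun i => (A.submatrix (fun i => a (ε i)) id) i) := by
    have h4 := hli.comp ε ε.injective
    exact h4
  have h5 := Matrix.linearIndependent_rows_iff_isUnit.1 h3
  exact ((Matrix.isUnit_iff_isUnit_det _).1 h5).ne_zero

theorem det_homog {σ R : Type} [CommRing R] {m : ℕ} (M : Matrix (Fin m) (Fin m) (MvPolynomial σ R))
    (δ : Fin m → ℕ) (h : ∀ i j, (M i j).IsHomogeneous (δ i)) :
    M.det.IsHomogeneous (∑ i, δ i) := by
  rw [Matrix.det_apply]
  refine IsHomogeneous.sum _ _ _ fun τ _ => ?_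
  have h1 : (∏ i, M (τ i) i).IsHomogeneous (∑ i, δ i) := by
    rw [← Equiv.sum_comp τ δ]
    exact IsHomogeneous.prod _ _ _ fun i _ => h (τ i) i
  rcases Int.units_eq_one_or (Equiv.Perm.sign τ) with h2 | h2
  · rw [h2, one_smul]; exact h1
  · rw [h2, Units.neg_smul, one_smul]; exact h1.neg

end W410.RG
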