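import Pool.Agent.W602.RG.Stm3
import Pool.Agent.W602.RG.FlowV
import Pool.Agent.W410.RG.GNWa

/-! GNW: outside a proper closed subset of a component of general type there are no lines on which
the linear forms in the classes remain proportional. -/

set_option autoImplicit false

open FF MvPolynomial Pool.Agent.W603.LV Pool.Agent.W603.PV
open Pool.Agent.W602.GT Pool.Agent.W602.RG

namespace W410.RG

variable {k : Type} [Field k] {n : ℕ} {ι : Type}

/-- the linear polynomial -/
noncomputable def Lp (l : Fin (n + 1) → k) : MvPolynomial (Fin (n + 1)) k :=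
  ∑ j, MvPolynomial.C (l j) * MvPolynomial.X j

theorem val_Lp {M : Type} [Field M] [Algebra k M] (x : Fin (n + 1) → M) (l : Fin (n + 1) → k) :
    val x (Lp l) = lin l x := by
  unfold val Lp lin
  rw [map_sum]
  refine Finset.sum_congr rfl fun j _ => ?_
  rw [map_mul, MvPolynomial.aeval_C, MvPolynomial.aeval_X]

theorem Lp_homog (l : Fin (n + 1) → k) : (Lp l).IsHomogeneous 1 :=
  IsHomogeneous.sum _ _ _ fun j _ => MvPolynomial.isHomogeneous_C_mul_X _ _

theorem form_prod {J : Type} (S : Finset J) (G : J → MvPolynomial (Fin (n + 1)) k)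
    (h : ∀ j ∈ S, IsForm (G j)) : IsForm (∏ j ∈ S, G j) := by
  classical
  induction S using Finset.induction_on with
  | empty => exact ⟨0, by rw [Finset.prod_empty]; exact isHomogeneous_one _ _⟩
  | insert a S ha ih =>
    rw [Finset.prod_insert ha]
    obtain ⟨d, hd⟩ := h a (Finset.mem_insert_self _ _)
    obtain ⟨e, he⟩ := ih fun j hj => h j (Finset.mem_insert_of_mem hj)
    exact ⟨d + e, hd.mul he⟩

theorem val_prod {M : Type} [Field M] [Algebra k M] (x : Fin (n + 1) → M) {J : Type} (S : Finset J)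
    (G : J → MvPolynomial (Fin (n + 1)) k) : val x (∏ j ∈ S, G j) = ∏ j ∈ S, val x (G j) :=
  map_prod _ _ _

/-- the index set of the rows -/
abbrev Rows (s : ι → ℕ) : Type := Unit ⊕ ((i : ι) × Fin (s i)) ⊕ ((i : ι) × Fin (s i) × Fin (s i))

open Classical in
/-- the matrix of the linear system -/
noncomputable def sysM {K : Type} [Field K] [Algebra k K] (s : ι → ℕ)
    (l : ∀ i, Fin (s i) → Fin (n + 1) → k)
    (y : Fin (n + 1) → K) (i0 : Fin (n + 1)) (R : ∀ i, Fin (s i) → Fin (s i) → Prop) :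
    Matrix (Rows s) (Fin (n + 1)) (MvPolynomial (Fin (n + 1)) k) :=
  fun r j => match r with
    | Sum.inl _ => if j = i0 then 1 else 0
    | Sum.inr (Sum.inl p) => if lin (l p.1 p.2) y = 0 then C (l p.1 p.2 j) else 0
    | Sum.inr (Sum.inr p) => if R p.1 p.2.1 p.2.2 then
        C (l p.1 p.2.1 j) * Lp (l p.1 p.2.2) - C (l p.1 p.2.2 j) * Lp (l p.1 p.2.1) else 0

/-- degrees of the rows -/
def degR (s : ι → ℕ) : Rows s → ℕ
  | Sum.inl _ => 0
  | Sum.inr (Sum.inl _) => 0
  | Sum.inr (Sum.inr _) => 1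

theorem sysM_homog {K : Type} [Field K] [Algebra k K] (s : ι → ℕ)
    (l : ∀ i, Fin (s i) → Fin (n + 1) → k)
    (y : Fin (n + 1) → K) (i0 : Fin (n + 1)) (R : ∀ i, Fin (s i) → Fin (s i) → Prop)
    (r : Rows s) (j : Fin (n + 1)) : (sysM s l y i0 R r j).IsHomogeneous (degR s r) := by
  classical
  rcases r with _ | p | p
  · change (if j = i0 then (1 : MvPolynomial (Fin (n + 1)) k) else 0).IsHomogeneous 0
    split_ifs
    · exact isHomogeneous_one _ _
    · exact isHomogeneous_zero _ _ _
  · change (if lin (l p.1 p.2) y = 0 then (C (l p.1 p.2 j) : MvPolynomial (Fin (n + 1)) k)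
      else 0).IsHomogeneous 0
    split_ifs
    · exact isHomogeneous_C _ _
    · exact isHomogeneous_zero _ _ _
  · change (if R p.1 p.2.1 p.2.2 then
        C (l p.1 p.2.1 j) * Lp (l p.1 p.2.2) - C (l p.1 p.2.2 j) * Lp (l p.1 p.2.1)
        else (0 : MvPolynomial (Fin (n + 1)) k)).IsHomogeneous 1
    split_ifs
    · exact ((Lp_homog _).C_mul _).sub ((Lp_homog _).C_mul _)
    · exact isHomogeneous_zero _ _ _

/-- the rows of the system at a point -/
theorem sysM_val {K : Type} [Field K] [Algebra k K] (s : ι → ℕ)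
    (l : ∀ i, Fin (s i) → Fin (n + 1) → k)
    (y : Fin (n + 1) → K) (i0 : Fin (n + 1)) (R : ∀ i, Fin (s i) → Fin (s i) → Prop)
    {M : Type} [Field M] [Algebra k M] (x v : Fin (n + 1) → M) :
    (∀ r, ∑ j, val x (sysM s l y i0 R r j) * v j = 0) ↔ v i0 = 0 ∧
      (∀ i t, lin (l i t) y = 0 → lin (l i t) v = 0) ∧
      ∀ i t t', R i t t' → lin (l i t) v * lin (l i t') x = lin (l i t') v * lin (l i t) x := by
  classical
  have e1 : ∀ u, ∑ j, val x (sysM s l y i0 R (Sum.inl u) j) * v j = v i0 := by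
    intro u
    have : ∀ j, val x (sysM s l y i0 R (Sum.inl u) j) * v j = if j = i0 then v j else 0 := by
      intro j
      change MvPolynomial.aeval x (if j = i0 then (1 : MvPolynomial (Fin (n + 1)) k) else 0) * v j = _
      split_ifs <;> simp
    rw [Finset.sum_congr rfl fun j _ => this j]
    simp
  have e2 : ∀ p : (i : ι) × Fin (s i),
      ∑ j, val x (sysM s l y i0 R (Sum.inr (Sum.inl p)) j) * v j =
      if lin (l p.1 p.2) y = 0 then lin (l p.1 p.2) v else 0 := by
    intro p
    have : ∀ j, val x (sysM s l y i0 R (Sum.inr (Sum.inl p)) j) * v j =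
        if lin (l p.1 p.2) y = 0 then algebraMap k M (l p.1 p.2 j) * v j else 0 := by
      intro j
      change MvPolynomial.aeval x (if lin (l p.1 p.2) y = 0 then
        (C (l p.1 p.2 j) : MvPolynomial (Fin (n + 1)) k) else 0) * v j = _
      split_ifs <;> simp
    rw [Finset.sum_congr rfl fun j _ => this j]
    split_ifs
    · rfl
    · simp
  have e3 : ∀ p : (i : ι) × Fin (s i) × Fin (s i),
      ∑ j, val x (sysM s l y i0 R (Sum.inr (Sum.inr p)) j) * v j =
      if R p.1 p.2.1 p.2.2 then lin (l p.1 p.2.1) v * lin (l p.1 p.2.2) x -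
        lin (l p.1 p.2.2) v * lin (l p.1 p.2.1) x else 0 := by
    intro p
    have : ∀ j, val x (sysM s l y i0 R (Sum.inr (Sum.inr p)) j) * v j =
        if R p.1 p.2.1 p.2.2 then algebraMap k M (l p.1 p.2.1 j) * v j * lin (l p.1 p.2.2) x -
          algebraMap k M (l p.1 p.2.2 j) * v j * lin (l p.1 p.2.1) x else 0 := by
      intro j
      have hL : ∀ l' : Fin (n + 1) → k, MvPolynomial.aeval x (Lp l') = lin l' x := fun l' =>
        val_Lp x l'
      change MvPolynomial.aeval x (if R p.1 p.2.1 p.2.2 then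
        C (l p.1 p.2.1 j) * Lp (l p.1 p.2.2) - C (l p.1 p.2.2 j) * Lp (l p.1 p.2.1)
        else (0 : MvPolynomial (Fin (n + 1)) k)) * v j = _
      split_ifs
      · rw [map_sub, map_mul, map_mul, MvPolynomial.aeval_C, MvPolynomial.aeval_C, hL, hL]
        ring
      · simp
    rw [Finset.sum_congr rfl fun j _ => this j]
    split_ifs
    · rw [Finset.sum_sub_distrib, ← Finset.sum_mul, ← Finset.sum_mul]
      rfl
    · simp
  constructor
  · intro h
    refine ⟨by rw [← e1 ()]; exact h _, fun i t h0 => ?_, fun i t t' hR => ?_⟩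
    · have h1 := h (Sum.inr (Sum.inl ⟨i, t⟩))
      rw [e2, if_pos h0] at h1
      exact h1
    · have h1 := h (Sum.inr (Sum.inr ⟨i, t, t'⟩))
      rw [e3, if_pos hR] at h1
      exact sub_eq_zero.1 h1
  · rintro ⟨h1, h2, h3⟩ r
    rcases r with u | p | p
    · rw [e1]; exact h1
    · rw [e2]
      split_ifs with h0
      · exact h2 _ _ h0
      · rfl
    · rw [e3]
      split_ifs with h0
      · exact sub_eq_zero.2 (h3 _ _ _ h0)
      · rfl

/-- the equations of the classes imply the equations of the variety -/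
theorem war_zero {K : Type} [Field K] [Algebra k K] {s d : ι → ℕ}
    {l : ∀ i, Fin (s i) → Fin (n + 1) → k} (hd : ∀ i, 0 < d i) (y : Fin (n + 1) → K)
    (R : ∀ i, Fin (s i) → Fin (s i) → Prop) (hR : ∀ i, Equivalence (R i))
    (hsum : ∀ i t0 (A : Finset (Fin (s i))), (∀ t, t ∈ A ↔ R i t t0) →
      ∑ t ∈ A, lin (l i t) y ^ d i = 0)
    (M : Type) [Field M] [Algebra k M] [Algebra K M] [IsScalarTower k K M]
    (x : Fin (n + 1) → M) (hZ : ∀ i t, lin (l i t) y = 0 → lin (l i t) x = 0)
    (hQ : ∀ i t t', R i t t' → lin (l i t) y ≠ 0 → lin (l i t') y ≠ 0 →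
      lin (l i t) x = algebraMap K M (lin (l i t) y / lin (l i t') y) * lin (l i t') x) (e : ι) :
    val x (war s d l e) = 0 := by
  classical
  have hval : val x (war s d l e) = ∑ t, lin (l e t) x ^ d e := by
    have h1 : war s d l e = ∑ t, Lp (l e t) ^ d e := rfl
    rw [h1]
    change MvPolynomial.aeval x _ = _
    rw [map_sum]
    refine Finset.sum_congr rfl fun t _ => ?_
    rw [map_pow]
    congr 1
    exact val_Lp x _
  rw [hval]
  let J : Type := {t : Fin (s e) // lin (l e t) y ≠ 0}
  have h1 : ∑ t, lin (l e t) x ^ d e = ∑ t : J, lin (l e t.1) x ^ d e := by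
    rw [← Finset.sum_subtype (Finset.univ.filter fun t => lin (l e t) y ≠ 0) (by simp)
      (fun t => lin (l e t) x ^ d e)]
    rw [Finset.sum_filter_of_ne]
    intro t _ ht h0
    apply ht
    rw [hZ e t h0, zero_pow (hd e).ne']
  rw [h1]
  have hy0 : ∀ t : J, algebraMap K M (lin (l e t.1) y) ≠ 0 := fun t => by
    rw [Ne, map_eq_zero]
    exact t.2
  have h2 := weighted_sum (fun t t' : J => R e t.1 t'.1)
    ⟨fun t => (hR e).refl _, fun h => (hR e).symm h, fun h h' => (hR e).trans h h'⟩
    (fun t : J => algebraMap K M (lin (l e t.1) y ^ d e))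
    (fun t => (lin (l e t.1) x / algebraMap K M (lin (l e t.1) y)) ^ d e)
    (fun t t' htt => by
      have h3 := hQ e t.1 t'.1 htt t.2 t'.2
      rw [map_div₀] at h3
      have := hy0 t
      have := hy0 t'
      congr 1
      rw [h3]
      field_simp)
    (fun t0 A hA => by
      rw [← map_sum]
      have h3 := hsum e t0.1 (Finset.univ.filter fun t => R e t t0.1) (fun t => by simp)
      have h4 : ∑ t ∈ A, lin (l e t.1) y ^ d e =
          ∑ t ∈ Finset.univ.filter (fun t => R e t t0.1), lin (l e t) y ^ d e := by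
        have h5 : ∑ t ∈ A, lin (l e t.1) y ^ d e =
            ∑ t ∈ A.map ⟨Subtype.val, Subtype.val_injective⟩, lin (l e t) y ^ d e := by
          rw [Finset.sum_map]
          rfl
        rw [h5]
        refine Finset.sum_subset ?_ ?_
        · intro t ht
          rw [Finset.mem_map] at ht
          obtain ⟨t', ht', rfl⟩ := ht
          rw [Finset.mem_filter]
          exact ⟨Finset.mem_univ _, (hR e).symm ((hA t').1 ht')⟩
        · intro t ht hnt
          rw [Finset.mem_filter] at ht
          by_contra h0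
          apply hnt
          have h6 : lin (l e t) y ≠ 0 := by
            intro h7
            apply h0
            rw [h7, zero_pow (hd e).ne']
          rw [Finset.mem_map]
          exact ⟨⟨t, h6⟩, (hA _).2 ((hR e).symm ht.2), rfl⟩
      rw [h4, h3, map_zero])
  refine Eq.trans (Finset.sum_congr rfl fun t _ => ?_) h2
  have := hy0 t
  rw [map_pow, ← mul_pow]
  congr 1
  field_simp

theorem key [IsAlgClosed k] [CharZero k] {s d : ι → ℕ}
    {l : ∀ i, Fin (s i) → Fin (n + 1) → k} (hd : ∀ i, 0 < d i) {K : Type} [Field K] [Algebra k K]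
    {w : ℕ} {y : Fin (n + 1) → K} (hy : SubVar (war s d l) K w y)
    (hcomp : IsComponent (war s d l) y) (hgt : GeneralType k K w) (i0 : Fin (n + 1))
    (hi0 : y i0 ≠ 0) (R : ∀ i, Fin (s i) → Fin (s i) → Prop) (hR : ∀ i, Equivalence (R i)) :
    ∃ G : MvPolynomial (Fin (n + 1)) k, IsForm G ∧ val y G ≠ 0 ∧ ∀ x ∈ VarPts k y, x i0 ≠ 0 →
      val x G ≠ 0 → ∀ v : Fin (n + 1) → k, (∃ j j', v j * x j' ≠ v j' * x j) →
      (∀ i t, lin (l i t) x = 0 → lin (l i t) v = 0) →
      (∀ i t t', R i t t' → lin (l i t) v * lin (l i t') x = lin (l i t') v * lin (l i t) x) →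
      (∀ i t0 (A : Finset (Fin (s i))), (∀ t, t ∈ A ↔ R i t t0) →
        ∑ t ∈ A, lin (l i t) x ^ d i = 0) → False := by
  classical
  by_cases hsum : ∀ i t0 (A : Finset (Fin (s i))), (∀ t, t ∈ A ↔ R i t t0) →
      ∑ t ∈ A, lin (l i t) y ^ d i = 0
  · -- the linear system at the generic point has only the zero solution
    have hker : ∀ v : Fin (n + 1) → K,
        (∀ r, ∑ j, (fun r j => val y (sysM s l y i0 R r j)) r j * v j = 0) → v = 0 := by
      intro v hv
      by_contra hv0
      obtain ⟨h1, h2, h3⟩ := (sysM_val s l y i0 R y v).1 hv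
      refine not_general_of_vec hy hcomp {z | ∃ i t, lin (l i t) y = 0 ∧ z = l i t}
        {p | ∃ i t t', R i t t' ∧ lin (l i t) y ≠ 0 ∧ lin (l i t') y ≠ 0 ∧ p = (l i t, l i t')}
        ?_ ?_ ?_ v i0 hi0 h1 hv0 ?_ ?_ hgt
      · rintro z ⟨i, t, h, rfl⟩
        exact h
      · rintro p ⟨i, t, t', -, h, h', rfl⟩
        exact ⟨h, h'⟩
      · intro M _ _ _ _ x hZ hQ e
        exact war_zero hd y R hR hsum M x (fun i t h => hZ _ ⟨i, t, h, rfl⟩)
          (fun i t t' h h' h'' => hQ _ ⟨i, t, t', h, h', h'', rfl⟩) e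
      · rintro z ⟨i, t, h, rfl⟩
        exact h2 i t h
      · rintro p ⟨i, t, t', h, h', h'', rfl⟩
        have h4 := h3 i t t' h
        change lin (l i t) v = lin (l i t) y / lin (l i t') y * lin (l i t') v
        field_simp
        linear_combination h4
    obtain ⟨e, he⟩ := exists_rows (Matrix.of fun r j => val y (sysM s l y i0 R r j)) hker
    have hdet : ∀ {M : Type} [Field M] [Algebra k M] (x : Fin (n + 1) → M),
        val x ((sysM s l y i0 R).submatrix e id).det =
          ((Matrix.of fun r j => val x (sysM s l y i0 R r j)).submatrix e id).det := by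
      intro M _ _ x
      change (MvPolynomial.aeval x : MvPolynomial (Fin (n + 1)) k →ₐ[k] M) _ = _
      rw [AlgHom.map_det]
      rfl
    refine ⟨((sysM s l y i0 R).submatrix e id).det, ⟨_, det_homog _ (fun i => degR s (e i))
      fun i j => sysM_homog s l y i0 R (e i) j⟩, by rw [hdet]; exact he, ?_⟩
    intro x hx hxi0 hxG v hv hv1 hv2 _
    rw [hdet] at hxG
    -- the solution of the system at x
    let c : k := v i0 / x i0
    let v' : Fin (n + 1) → k := fun j => 1 * v j + (-c) * x j
    have hl : ∀ l' : Fin (n + 1) → k, lin l' v' = lin l' v - c * lin l' x := by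
      intro l'
      simp only [v']
      rw [lin_add_smul]
      ring
    have hsol : ∀ r, ∑ j, val x (sysM s l y i0 R r j) * v' j = 0 := by
      rw [sysM_val]
      refine ⟨?_, ?_, ?_⟩
      · simp only [v', c]
        field_simp
        ring
      · intro i t h0
        have h1 : lin (l i t) x = 0 := by
          rw [← val_Lp]
          exact hx.2 _ ⟨1, Lp_homog _⟩ (by rw [val_Lp]; exact h0)
        rw [hl, hv1 i t h1, h1, mul_zero, sub_zero]
      · intro i t t' h
        rw [hl, hl]
        linear_combination hv2 i t t' h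
    have hv'0 : v' = 0 := by
      by_contra hne
      apply hxG
      rw [← Matrix.exists_mulVec_eq_zero_iff]
      refine ⟨v', hne, ?_⟩
      funext r
      exact hsol (e r)
    obtain ⟨j, j', hjj⟩ := hv
    apply hjj
    have h1 : ∀ j, v j = c * x j := by
      intro j
      have h2 : (1 : k) * v j + (-c) * x j = 0 := congrFun hv'0 j
      linear_combination h2
    rw [h1 j, h1 j']
    ring
  · push Not at hsum
    obtain ⟨i, t0, A, hA, hne⟩ := hsum
    have hval : ∀ {M : Type} [Field M] [Algebra k M] (x : Fin (n + 1) → M),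
        val x (∑ t ∈ A, Lp (l i t) ^ d i) = ∑ t ∈ A, lin (l i t) x ^ d i := by
      intro M _ _ x
      change MvPolynomial.aeval x _ = _
      rw [map_sum]
      refine Finset.sum_congr rfl fun t _ => ?_
      rw [map_pow]
      congr 1
      exact val_Lp x _
    refine ⟨∑ t ∈ A, Lp (l i t) ^ d i, ⟨1 * d i, IsHomogeneous.sum _ _ _ fun t _ =>
      (Lp_homog _).pow _⟩, by rw [hval]; exact hne, ?_⟩
    intro x _ _ hxG v _ _ _ h
    apply hxG
    rw [hval]
    exact h i t0 A hA

theorem main : S_GNW := by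
  classical
  intro k _ _ _ n ι _ s d l hd K _ _ w y hw hy hcomp hgt
  obtain ⟨i0, hi0⟩ := Function.ne_iff.1 hy.ne
  have hi0' : y i0 ≠ 0 := hi0
  have hfinι := Fintype.ofFinite ι
  have hfin : Fintype (∀ i, Fin (s i) → Fin (s i) → Prop) := Fintype.ofFinite _
  have hex : ∀ R : ∀ i, Fin (s i) → Fin (s i) → Prop, ∃ G : MvPolynomial (Fin (n + 1)) k,
      IsForm G ∧ val y G ≠ 0 ∧ ∀ x ∈ VarPts k y, x i0 ≠ 0 →
      val x G ≠ 0 → (∀ i, Equivalence (R i)) →
      ∀ v : Fin (n + 1) → k, (∃ j j', v j * x j' ≠ v j' * x j) →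
      (∀ i t, lin (l i t) x = 0 → lin (l i t) v = 0) →
      (∀ i t t', R i t t' → lin (l i t) v * lin (l i t') x = lin (l i t') v * lin (l i t) x) →
      (∀ i t0 (A : Finset (Fin (s i))), (∀ t, t ∈ A ↔ R i t t0) →
        ∑ t ∈ A, lin (l i t) x ^ d i = 0) → False := by
    intro R
    by_cases hR : ∀ i, Equivalence (R i)
    · obtain ⟨G, h1, h2, h3⟩ := key hd hy hcomp hgt i0 hi0' R hR
      exact ⟨G, h1, h2, fun x hx hx0 hxG _ => h3 x hx hx0 hxG⟩
    · exact ⟨1, ⟨0, isHomogeneous_one _ _⟩, by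
        change MvPolynomial.aeval y (1 : MvPolynomial (Fin (n + 1)) k) ≠ 0
        rw [map_one]; exact one_ne_zero, fun x _ _ _ h => absurd h hR⟩
  choose GR hG1 hG2 hG3 using hex
  let P : Type := (i : ι) × Fin (s i)
  let H : P → MvPolynomial (Fin (n + 1)) k := fun p =>
    if lin (l p.1 p.2) y = 0 then 1 else Lp (l p.1 p.2)
  refine ⟨X i0 * (∏ p : P, H p) * ∏ R, GR R, ?_, ?_, ?_⟩
  · obtain ⟨a, ha⟩ := form_prod Finset.univ H fun p _ => by
      simp only [H]
      split_ifs
      · exact ⟨0, isHomogeneous_one _ _⟩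
      · exact ⟨1, Lp_homog _⟩
    obtain ⟨b, hb⟩ := form_prod Finset.univ GR fun R _ => hG1 R
    exact ⟨1 + a + b, ((isHomogeneous_X _ _).mul ha).mul hb⟩
  · change MvPolynomial.aeval y _ ≠ 0
    rw [map_mul, map_mul, map_prod, map_prod, MvPolynomial.aeval_X]
    refine mul_ne_zero (mul_ne_zero hi0' ?_) ?_
    · refine Finset.prod_ne_zero_iff.2 fun p _ => ?_
      simp only [H]
      split_ifs with h0
      · rw [map_one]; exact one_ne_zero
      · have := val_Lp y (l p.1 p.2)
        unfold val at this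
        rw [this]
        exact h0
    · exact Finset.prod_ne_zero_iff.2 fun R _ => hG2 R
  · intro x hx hxG
    have hxG' : MvPolynomial.aeval x (X i0 * (∏ p : P, H p) * ∏ R, GR R) ≠ 0 := hxG
    rw [map_mul, map_mul, map_prod, map_prod, MvPolynomial.aeval_X] at hxG'
    have h1 := left_ne_zero_of_mul (left_ne_zero_of_mul hxG')
    have h2 := right_ne_zero_of_mul (left_ne_zero_of_mul hxG')
    have h3 := right_ne_zero_of_mul hxG'
    refine ⟨fun i t h0 => ?_, ?_⟩
    · by_contra hne
      have h4 := Finset.prod_ne_zero_iff.1 h2 ⟨i, t⟩ (Finset.mem_univ _)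
      simp only [H] at h4
      rw [if_neg hne] at h4
      have := val_Lp x (l i t)
      unfold val at this
      rw [this] at h4
      exact h4 h0
    · rintro ⟨R, v, hR, hv, hv1, hv2, hv3⟩
      exact hG3 R x hx h1 (Finset.prod_ne_zero_iff.1 h3 R (Finset.mem_univ _)) hR v hv hv1 hv2 hv3

end W410.RG
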